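import Mathlib

/-! A Wronskian for three products of square roots of linear polynomials. -/

open Polynomial

noncomputable section

namespace Pool.Agent.FS26

theorem lin_dvd {u v : ℤ} {β : ℝ} (hv : v * v = 1) (hβ : u * β + v = 0) {f : ℤ[X]}
    (hf : aeval β f = 0) : C u * X + C v ∣ f := by
  have key : ∀ g : ℤ[X], ∃ (n : ℕ) (c : ℤ), C u * X + C v ∣ C u ^ n * g - C c := by
    intro g
    induction g using Polynomial.induction_on with
    | C a => exact ⟨0, a, by simp⟩
    | add p q hp hq =>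
      obtain ⟨n, c, x, h⟩ := hp
      obtain ⟨k, d, y, h'⟩ := hq
      refine ⟨n + k, u ^ k * c + u ^ n * d, C u ^ k * x + C u ^ n * y, ?_⟩
      simp only [map_add, map_mul, map_pow]
      linear_combination C u ^ k * h + C u ^ n * h'
    | monomial n a hp =>
      obtain ⟨k, c, x, h⟩ := hp
      refine ⟨k + 1, -(v * c), C u * X * x + C c, ?_⟩
      simp only [map_neg, map_mul]
      linear_combination C u * X * h
  obtain ⟨n, c, x, h⟩ := key f
  have h1 := congrArg (aeval β) h
  simp only [map_sub, map_mul, map_add, hf, map_intCast, aeval_X, eq_intCast, hβ, mul_zero,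
    zero_mul, zero_sub, neg_eq_zero, Int.cast_eq_zero] at h1
  rw [h1, map_zero, sub_zero] at h
  have h2 : IsCoprime (C u * X + C v) (C u) := by
    refine ⟨C v, -(C v * X), ?_⟩
    have := congrArg C hv
    rw [map_mul, map_one] at this
    linear_combination this
  exact (h2.pow_right (n := n)).dvd_of_dvd_mul_left ⟨x, h⟩

theorem mul_deriv_pow (π g : ℤ[X]) (a : ℕ) :
    π * derivative (π ^ a * g) = π ^ a * (a * derivative π * g + π * derivative g) := by
  cases a with
  | zero => simp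
  | succ a =>
    simp only [derivative_mul, derivative_pow, Nat.add_sub_cancel, map_natCast]
    ring

/-- `β` is the reciprocal of an integer. -/
def Rt (β : ℝ) : Prop := ∃ u v : ℤ, v * v = 1 ∧ u * β + v = 0

theorem two {β : ℝ} (hβ : Rt β) {T V A B : ℤ[X]} (hT : aeval β T = 0)
    (hT' : aeval β (derivative T) ≠ 0) (hV : 2 * aeval β V = aeval β (derivative T))
    (hA : A ≠ 0) (hB : B ≠ 0) : T * (A * derivative B - derivative A * B) + V * (A * B) ≠ 0 := by
  obtain ⟨u, v, hv, hβ⟩ := hβ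
  have h0 : aeval β (C u * X + C v) = 0 := by simpa using hβ
  obtain ⟨S, rfl⟩ := lin_dvd hv hβ hT
  have hd := @lin_dvd u v β hv hβ
  generalize C u * X + C v = π at *
  have hu : ¬IsUnit π := fun h => by simpa [h0] using h.map (aeval β)
  obtain ⟨a, A, hA1, rfl⟩ := WfDvdMonoid.max_power_factor' hA hu
  obtain ⟨b, B, hB1, rfl⟩ := WfDvdMonoid.max_power_factor' hB hu
  have hπ : π ≠ 0 := by
    rintro rfl
    simp at hT'
  intro h
  have h1 : π ^ (a + b) * ((S * derivative π * (b - a) + V) * A * B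
      + π * (S * (A * derivative B - derivative A * B))) = 0 := by
    linear_combination h - S * π ^ a * A * mul_deriv_pow π B b + S * π ^ b * B * mul_deriv_pow π A a
  have h2 := congrArg (aeval β) ((mul_eq_zero.1 h1).resolve_left (pow_ne_zero _ hπ))
  simp only [derivative_mul, map_add, map_mul, h0, zero_mul, add_zero, map_sub, map_natCast,
    map_zero] at h2 hT' hV
  rcases mul_eq_zero.1 h2 with h3 | h3
  · rcases mul_eq_zero.1 h3 with h3 | h3
    · have h4 : aeval β (derivative π) * aeval β S * ((2 * (b - a) + 1 : ℤ) : ℝ) = 0 := by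
        push_cast
        linear_combination 2 * h3 - hV
      have h5 := (mul_eq_zero.1 h4).resolve_left hT'
      rw [Int.cast_eq_zero] at h5
      omega
    · exact hA1 (hd h3)
  · exact hB1 (hd h3)

theorem pair {β : ℝ} (hβ : Rt β) {F G f g A B : ℤ[X]} {m : ℕ} (hF : aeval β F ≠ 0)
    (hG : aeval β G = 0) (hG' : aeval β (derivative G) ≠ 0) (hf : X ^ m ∣ f ^ 2 - F)
    (hg : X ^ m ∣ g ^ 2 - G) (h : X ^ m ∣ A * f + B * g)
    (hd : (A ^ 2 * F - B ^ 2 * G).natDegree < m) : A = 0 ∧ B = 0 := by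
  have h1 : A ^ 2 * F - B ^ 2 * G = 0 := by
    obtain ⟨x, hx⟩ := hf
    obtain ⟨y, hy⟩ := hg
    obtain ⟨z, hz⟩ := h
    refine eq_zero_of_dvd_of_natDegree_lt (p := X ^ m)
      ⟨z * (A * f - B * g) - A ^ 2 * x + B ^ 2 * y, ?_⟩ (by simpa using hd)
    linear_combination (A * f - B * g) * hz - A ^ 2 * hx + B ^ 2 * hy
  have hF0 : F ≠ 0 := by
    rintro rfl
    simp at hF
  have hG0 : G ≠ 0 := by
    rintro rfl
    simp at hG'
  by_cases hA : A = 0
  · simpa [hA, hG0] using h1
  by_cases hB : B = 0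
  · simpa [hB, hF0] using h1
  exfalso
  have h2 := congrArg derivative h1
  simp only [derivative_sub, derivative_mul, derivative_sq, derivative_zero, map_ofNat] at h2
  refine two hβ (T := 2 * (F * G)) (V := F * derivative G - derivative F * G) ?_ ?_ ?_ hA hB ?_
  · simp [hG]
  · simp [hG, hF, hG', map_ofNat]
  · simp [hG, map_ofNat]
  · refine (mul_eq_zero.1 ?_).resolve_left (mul_ne_zero hA hB)
    linear_combination (2 * G * B * derivative B + derivative G * B ^ 2) * h1 - B ^ 2 * G * h2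

/-- The operator induced by `T · d/dX`. -/
def Dop (T : ℤ[X]) (U P : Fin 3 → ℤ[X]) : Fin 3 → ℤ[X] :=
  fun i => T * derivative (P i) + U i * P i

/-- The determinant with rows `a, b, c`. -/
def det3 (a b c : Fin 3 → ℤ[X]) : ℤ[X] :=
  a 0 * (b 1 * c 2 - b 2 * c 1) - a 1 * (b 0 * c 2 - b 2 * c 0) + a 2 * (b 0 * c 1 - b 1 * c 0)

theorem det3_deriv (T : ℤ[X]) (U a b c : Fin 3 → ℤ[X]) :
    T * derivative (det3 a b c) + (U 0 + U 1 + U 2) * det3 a b c
      = det3 (Dop T U a) b c + det3 a (Dop T U b) c + det3 a b (Dop T U c) := by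
  simp only [det3, Dop, derivative_mul, derivative_add, derivative_sub]
  ring

theorem det3_ne {β₁ β₂ : ℝ} (h₁ : Rt β₁) (h₂ : Rt β₂) {T₁ T₂ : ℤ[X]} (a₁ : aeval β₁ T₁ = 0)
    (b₁ : aeval β₁ (derivative T₁) ≠ 0) (c₁ : aeval β₁ T₂ ≠ 0) (a₂ : aeval β₂ T₂ = 0)
    (b₂ : aeval β₂ (derivative T₂) ≠ 0) (c₂ : aeval β₂ T₁ ≠ 0) {P : Fin 3 → ℤ[X]}
    (hP : ∀ i, P i ≠ 0) {T : ℤ[X]} {U : Fin 3 → ℤ[X]} (t : T = 2 * (T₁ * T₂)) (u₀ : U 0 = 0)
    (u₁ : U 1 = derivative T₁ * T₂) (u₂ : U 2 = derivative (T₁ * T₂)) :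
    det3 P (Dop T U P) (Dop T U (Dop T U P)) ≠ 0 := by
  have e1 := two h₁ (T := T) (V := U 1) (by simp [a₁, t]) (by simp [a₁, t, b₁, c₁, map_ofNat])
    (by simp [a₁, t, u₁, map_ofNat]) (hP 0) (hP 1)
  have e2 := two h₁ (T := T) (V := U 2) (by simp [a₁, t]) (by simp [a₁, t, b₁, c₁, map_ofNat])
    (by simp [a₁, t, u₂, map_ofNat]) (hP 0) (hP 2)
  intro h
  refine two h₂ (T := T) (V := U 2 - U 1) (by simp [a₂, t]) (by simp [a₂, t, b₂, c₂, map_ofNat])
    (by simp [a₂, t, u₁, u₂, map_ofNat]) e1 e2 ?_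
  simp only [det3, Dop, derivative_mul, derivative_add, derivative_sub, u₀, zero_mul,
    add_zero] at h ⊢
  linear_combination P 0 * h

theorem pow_dvd_det3 {u v : ℤ} {β : ℝ} (hv : v * v = 1) (hβ : u * β + v = 0) {T : ℤ[X]}
    (hT : aeval β T ≠ 0) (U P : Fin 3 → ℤ[X]) {y : Fin 3 → ℝ} (hy : y 0 ≠ 0) {K : ℕ}
    (h : ∀ k ≤ K, ∑ i, aeval β ((Dop T U)^[k] P i) * y i = 0) (s : ℕ) :
    ∀ i j k, i + s ≤ K + 1 → j + s ≤ K + 1 → k + s ≤ K + 1 →
      (C u * X + C v) ^ s ∣ det3 ((Dop T U)^[i] P) ((Dop T U)^[j] P) ((Dop T U)^[k] P) := by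
  have h0 : aeval β (C u * X + C v) = 0 := by simpa using hβ
  have hu : (u : ℝ) ≠ 0 := by
    rintro h
    rw [h, zero_mul, zero_add, Int.cast_eq_zero] at hβ
    simp [hβ] at hv
  have h1 : aeval β (derivative (C u * X + C v)) ≠ 0 := by simpa using hu
  have hd := @lin_dvd u v β hv hβ
  generalize C u * X + C v = π at *
  have hπ : π ≠ 0 := by
    rintro rfl
    simp at h1
  induction s with
  | zero => simp
  | succ s ih =>
    intro i j k hi hj hk
    obtain ⟨g, hg⟩ := ih i j k (by omega) (by omega) (by omega)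
    rw [hg, pow_succ]
    refine mul_dvd_mul_left _ (hd ?_)
    rcases Nat.eq_zero_or_pos s with rfl | hs
    · rw [pow_zero, one_mul] at hg
      have e1 := h i (by omega)
      have e2 := h j (by omega)
      have e3 := h k (by omega)
      rw [← hg]
      generalize (Dop T U)^[i] P = a at *
      generalize (Dop T U)^[j] P = b at *
      generalize (Dop T U)^[k] P = c at *
      simp only [Fin.sum_univ_three] at e1 e2 e3
      refine (mul_eq_zero.1 ?_).resolve_left hy
      simp only [det3, map_add, map_sub, map_mul]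
      linear_combination (aeval β (b 1) * aeval β (c 2) - aeval β (b 2) * aeval β (c 1)) * e1
        - (aeval β (a 1) * aeval β (c 2) - aeval β (a 2) * aeval β (c 1)) * e2
        + (aeval β (a 1) * aeval β (b 2) - aeval β (a 2) * aeval β (b 1)) * e3
    · have e := det3_deriv T U ((Dop T U)^[i] P) ((Dop T U)^[j] P) ((Dop T U)^[k] P)
      simp only [← Function.iterate_succ_apply' (Dop T U)] at e
      obtain ⟨x, hx⟩ : π ^ s ∣ _ := ((ih (i + 1) j k (by omega) (by omega) (by omega)).add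
        (ih i (j + 1) k (by omega) (by omega) (by omega))).add
        (ih i j (k + 1) (by omega) (by omega) (by omega))
      rw [← e, hg] at hx
      have e1 : π ^ s * (T * (s * derivative π * g)
          + π * (T * derivative g + (U 0 + U 1 + U 2) * g - x)) = 0 := by
        linear_combination π * hx - T * mul_deriv_pow π g s
      have e2 := congrArg (aeval β) ((mul_eq_zero.1 e1).resolve_left (pow_ne_zero _ hπ))
      simpa [h0, hT, h1, hs.ne'] using e2

end Pool.Agent.FS26
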