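import Pool.Agent.Lib.FS26.Sq

/-! The auxiliary polynomials and the vanishing of the linear form. -/

open Polynomial Finset

noncomputable section

namespace Pool.Agent.FS26

theorem siegel (g : Fin 3 → ℤ[X]) {E : ℕ} (hE : 0 < E) {b : ℝ} (hb : 1 ≤ b)
    (h : ∀ i, ∀ j < 5 * E, |((g i).coeff j : ℝ)| ≤ b) :
    ∃ P : Fin 3 → ℤ[X], P ≠ 0 ∧ (∀ i, (P i).natDegree ≤ 2 * E) ∧
      (∀ i, nrm 1 (P i) ≤ 2 * E * (6 * E * b) ^ 5) ∧ X ^ (5 * E) ∣ ∑ i, P i * g i := by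
  let A : Matrix (Fin (5 * E)) (Fin 3 × Fin (2 * E)) ℤ :=
    Matrix.of fun n c => (X ^ (c.2 : ℕ) * g c.1).coeff n
  obtain ⟨t, t0, t1, t2⟩ := Int.Matrix.exists_ne_zero_int_vec_norm_le A (by simp; omega)
    (by simpa using hE)
  have hA := (Matrix.norm_le_iff (A := A) (zero_le_one.trans hb)).2 fun n c => by
    simp only [A, Matrix.of_apply, coeff_X_pow_mul', Int.norm_eq_abs]
    split_ifs
    · exact h _ _ (by omega)
    · simpa using zero_le_one.trans hb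
  have hE' : (0 : ℝ) < E := by exact_mod_cast hE
  have e : ((Fintype.card (Fin (5 * E)) : ℝ) / ((Fintype.card (Fin 3 × Fin (2 * E)) : ℝ)
      - (Fintype.card (Fin (5 * E)) : ℝ))) = ((5 : ℕ) : ℝ) := by
    simp only [Fintype.card_prod, Fintype.card_fin]
    push_cast
    rw [div_eq_iff (by linarith)]
    ring
  rw [e, Real.rpow_natCast] at t2
  have t3 : ∀ c, |(t c : ℝ)| ≤ (6 * E * b) ^ 5 := fun c => by
    refine ((Int.norm_eq_abs _).symm.trans_le (norm_le_pi_norm t c)).trans (t2.trans ?_)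
    simp only [Fintype.card_prod, Fintype.card_fin]
    push_cast
    refine pow_le_pow_left₀ (by positivity) ?_ 5
    have := mul_le_mul_of_nonneg_left (max_le hb hA) (by positivity : (0 : ℝ) ≤ 3 * (2 * E))
    linarith
  refine ⟨fun i => ∑ j : Fin (2 * E), monomial j (t (i, j)), fun h0 => t0 ?_, fun i => ?_,
    fun i => ?_, X_pow_dvd_iff.2 fun n hn => ?_⟩
  · funext c
    have := congrArg (coeff · (c.2 : ℕ)) (congrFun h0 c.1)
    simpa [coeff_monomial, Fin.val_inj] using this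
  · exact natDegree_sum_le_of_forall_le _ _ fun j _ => (natDegree_monomial_le _).trans j.2.le
  · refine (nrm_sum zero_le_one _ _).trans ((sum_le_card_nsmul _ _ ((6 * E * b) ^ 5)
      fun j _ => ?_).trans (by simp))
    rw [nrm_monomial, one_pow, mul_one]
    exact t3 _
  · have := congrFun t1 ⟨n, hn⟩
    simp only [A, Matrix.mulVec, dotProduct, Matrix.of_apply, Fintype.sum_prod_type,
      Pi.zero_apply] at this
    simp only [sum_mul, finsetSum_coeff, ← C_mul_X_pow_eq_monomial, mul_assoc, coeff_C_mul]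
    simpa only [mul_comm] using this

theorem approx {y Y G Q η ε : ℝ} (hG : 0 ≤ G) (h1 : |G ^ 2 - Q| ≤ η) (h2 : |y ^ 2 - Q * Y ^ 2| ≤ ε)
    (hY : 0 < Y) (h3 : Y ≤ 2 * y) : |y - G * Y| ≤ 2 * (ε / Y + Y * η) := by
  have h4 : |y - G * Y| * (y + G * Y) ≤ ε + Y ^ 2 * η := by
    have e : (y - G * Y) * (y + G * Y) = (y ^ 2 - Q * Y ^ 2) - Y ^ 2 * (G ^ 2 - Q) := by ring
    rw [← abs_of_nonneg (by nlinarith : 0 ≤ y + G * Y), ← abs_mul, e]
    refine (abs_sub _ _).trans (add_le_add h2 ?_)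
    rw [abs_mul, abs_of_nonneg (sq_nonneg Y)]
    gcongr
  have h5 : |y - G * Y| * (Y / 2) ≤ |y - G * Y| * (y + G * Y) :=
    mul_le_mul_of_nonneg_left (by nlinarith) (abs_nonneg _)
  refine le_of_mul_le_mul_right ((h5.trans h4).trans_eq ?_) (half_pos hY)
  field_simp

theorem near {S : Finset ℕ} {u v N x₀ x : ℕ} (hS : S.card = 2 * u) (huv : u ≤ v) (hN : 0 < N)
    (ha : ∀ a ∈ S, a ≤ N) (hx : 2 ≤ x₀)
    (e : x ^ 2 + ∏ a ∈ S, (N + a) = (∏ a ∈ S, (N + a)) * x₀ ^ 2 + 1) :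
    |((x * N ^ (v - u) : ℕ) : ℝ) ^ 2 - aeval ((4 * N : ℕ) : ℝ)⁻¹ (TS S) * (x₀ * N ^ v) ^ 2|
      ≤ (N ^ v) ^ 2 * 2 ^ S.card ∧ (x₀ * N ^ v : ℝ) ≤ 2 * (x * N ^ (v - u) : ℕ) := by
  have h0 : (0 : ℝ) < N := by exact_mod_cast hN
  set Q := aeval ((4 * N : ℕ) : ℝ)⁻¹ (TS S) with hQ
  have q1 : Q * ((N : ℝ) ^ u) ^ 2 = ((∏ a ∈ S, (N + a) : ℕ) : ℝ) := by
    rw [hQ, aeval_TS, ← pow_mul, mul_comm u 2, ← hS, ← prod_const, ← prod_mul_distrib]
    push_cast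
    refine prod_congr rfl fun a _ => ?_
    field_simp
  have q2 : 1 ≤ Q := by
    rw [hQ, aeval_TS]
    exact one_le_prod fun a _ => le_add_of_nonneg_right (by positivity)
  have q3 : Q ≤ 2 ^ S.card := by
    rw [hQ, aeval_TS, ← prod_const]
    refine prod_le_prod (fun a _ => by positivity) fun a h => ?_
    have : (a : ℝ) ≤ N := by exact_mod_cast ha a h
    push_cast
    field_simp
    linarith
  have e' := congrArg (Nat.cast : ℕ → ℝ) e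
  have hx' : (2 : ℝ) ≤ x₀ := by exact_mod_cast hx
  have q4 : (N : ℝ) ^ v = N ^ (v - u) * N ^ u := by rw [← pow_add, Nat.sub_add_cancel huv]
  have q5 : (1 : ℝ) ≤ N ^ u := one_le_pow₀ (by exact_mod_cast hN)
  have q6 : (0 : ℝ) < N ^ (v - u) := by positivity
  rw [Nat.cast_add, Nat.cast_add, Nat.cast_mul, ← q1] at e'
  push_cast at e' ⊢
  rw [q4]
  generalize (N : ℝ) ^ (v - u) = n at *
  generalize (N : ℝ) ^ u = k at *
  have q7 : 1 ≤ k ^ 2 := one_le_pow₀ q5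
  have q8 : k ^ 2 ≤ Q * k ^ 2 := le_mul_of_one_le_left (by positivity) q2
  constructor
  · have : (x * n) ^ 2 - Q * (x₀ * (n * k)) ^ 2 = -(n ^ 2 * (Q * k ^ 2 - 1)) := by
      linear_combination n ^ 2 * e'
    rw [this, abs_neg, abs_of_nonneg (mul_nonneg (by positivity) (by linarith))]
    have := mul_le_mul_of_nonneg_left q3 (by positivity : 0 ≤ (n * k) ^ 2)
    nlinarith
  · have : x₀ * k ≤ 2 * x := by
      refine le_of_sq_le_sq ?_ (by positivity)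
      have h1 : (x₀ : ℝ) ^ 2 ≤ 4 * (x₀ ^ 2 - 1) := by nlinarith
      have h2 := mul_le_mul q8 h1 (by positivity) (by positivity)
      nlinarith
    nlinarith

theorem vanish {p g : Fin 3 → ℤ[X]} {y : Fin 3 → ℕ} {M d n : ℕ} {r H b Y δ : ℝ} (hM : 0 < M)
    (hr : 0 < r) (hr1 : r ≤ 1) (hα : (M : ℝ)⁻¹ ≤ r) (hd : ∀ i, (p i).natDegree ≤ d)
    (hH : ∀ i, nrm 1 (p i) ≤ H) (hb : ∀ i, nrm r (g i) ≤ b) (hn : X ^ n ∣ ∑ i, p i * g i)
    (hY : 0 ≤ Y) (hy : ∀ i, |y i - aeval (M : ℝ)⁻¹ (g i) * Y| ≤ δ)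
    (h : M ^ d * (Y * (((M : ℝ)⁻¹ / r) ^ n * (3 * (H * b))) + 3 * (H * δ)) < 1) :
    ∑ i, aeval (M : ℝ)⁻¹ (p i) * y i = 0 := by
  have h0 : (0 : ℝ) < M := by exact_mod_cast hM
  have a0 : (0 : ℝ) ≤ (M : ℝ)⁻¹ := by positivity
  choose q hq using fun i => exists_int hM (hd i)
  have e : ((∑ i, q i * y i : ℤ) : ℝ) = M ^ d * ∑ i, aeval (M : ℝ)⁻¹ (p i) * y i := by
    push_cast
    simp only [hq, mul_sum, mul_assoc]
  have e1 : |aeval (M : ℝ)⁻¹ (∑ i, p i * g i)| ≤ ((M : ℝ)⁻¹ / r) ^ n * (3 * (H * b)) := by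
    refine (aeval_le_of_dvd a0 hr hα hn).trans (mul_le_mul_of_nonneg_left ?_ (by positivity))
    refine (nrm_sum hr.le _ _).trans ((sum_le_card_nsmul _ _ (H * b) fun i _ => ?_).trans (by simp))
    exact nrm_mul_le hr.le ((nrm_mono hr.le hr1 _).trans (hH i)) (hb i)
  have e2 : |∑ i, aeval (M : ℝ)⁻¹ (p i) * (y i - aeval (M : ℝ)⁻¹ (g i) * Y)| ≤ 3 * (H * δ) := by
    refine (abs_sum_le_sum_abs _ _).trans
      ((sum_le_card_nsmul _ _ (H * δ) fun i _ => ?_).trans (by simp))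
    have := (aeval_le_nrm a0 (p i)).trans ((nrm_mono a0 (hα.trans hr1) _).trans (hH i))
    rw [abs_mul]
    exact mul_le_mul this (hy i) (abs_nonneg _) ((abs_nonneg _).trans this)
  have e3 : ∑ i, aeval (M : ℝ)⁻¹ (p i) * y i = Y * aeval (M : ℝ)⁻¹ (∑ i, p i * g i)
      + ∑ i, aeval (M : ℝ)⁻¹ (p i) * (y i - aeval (M : ℝ)⁻¹ (g i) * Y) := by
    simp only [Fin.sum_univ_three, map_add, map_mul]
    ring
  have e4 : |((∑ i, q i * y i : ℤ) : ℝ)| < 1 := by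
    refine lt_of_le_of_lt ?_ h
    rw [e, abs_mul, abs_of_nonneg (by positivity), e3]
    refine mul_le_mul_of_nonneg_left ((abs_add_le _ _).trans (add_le_add ?_ e2)) (by positivity)
    rw [abs_mul, abs_of_nonneg hY]
    gcongr
  rw [← Int.cast_abs, ← Int.cast_one, Int.cast_lt, Int.abs_lt_one_iff] at e4
  rw [e4, Int.cast_zero] at e
  exact (mul_eq_zero.1 e.symm).resolve_left (by positivity)

theorem numeric {Z m Y ρ H b δ : ℝ} (hZ : 4 ≤ Z) (h1 : m ≤ Z ^ 204) (h2 : Y ≤ Z ^ 287)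
    (h3 : ρ ≤ (Z ^ 498)⁻¹) (h4 : H ≤ Z ^ 4) (h5 : 3 * b ≤ Z) (h6 : δ ≤ 4 * (Z ^ 210)⁻¹)
    (p2 : 0 ≤ Y) (p3 : 0 ≤ ρ) (p4 : 0 ≤ H) (p5 : 0 ≤ b) (p6 : 0 ≤ δ) :
    m * (Y * (ρ * (3 * (H * b))) + 3 * (H * δ)) < 1 := by
  have h0 : 0 < Z := by linarith
  calc m * (Y * (ρ * (3 * (H * b))) + 3 * (H * δ))
      = m * (Y * (ρ * (H * (3 * b))) + 3 * (H * δ)) := by ring
    _ ≤ Z ^ 204 * (Z ^ 287 * ((Z ^ 498)⁻¹ * (Z ^ 4 * Z)) + 3 * (Z ^ 4 * (4 * (Z ^ 210)⁻¹))) := by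
      gcongr
    _ = 13 / Z ^ 2 := by
      field_simp
      norm_num
    _ < 1 := by
      rw [div_lt_one (by positivity)]
      nlinarith

theorem nrm_det3 {a b c : Fin 3 → ℤ[X]} {A B C : ℝ} (ha : ∀ i, nrm 1 (a i) ≤ A)
    (hb : ∀ i, nrm 1 (b i) ≤ B) (hc : ∀ i, nrm 1 (c i) ≤ C) :
    nrm 1 (det3 a b c) ≤ 6 * (A * (B * C)) := by
  have h : ∀ i j k, nrm 1 (a i * (b j * c k - b k * c j)) ≤ A * (B * C + B * C) := fun i j k =>
    nrm_mul_le zero_le_one (ha i) ((nrm_sub zero_le_one _ _).trans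
      (add_le_add (nrm_mul_le zero_le_one (hb j) (hc k)) (nrm_mul_le zero_le_one (hb k) (hc j))))
  refine (nrm_add zero_le_one _ _).trans ((add_le_add ((nrm_sub zero_le_one _ _).trans
    (add_le_add (h 0 1 2) (h 1 0 2))) (h 2 0 1)).trans_eq ?_)
  ring

theorem pow_le_nrm {M s : ℕ} (hM : 0 < M) {f : ℤ[X]} (hf : f ≠ 0)
    (h : (C (M : ℤ) * X + C (-1)) ^ s ∣ f) : (M : ℝ) ^ s ≤ nrm 1 f := by
  have h1 := leadingCoeff_dvd_leadingCoeff h
  rw [leadingCoeff_pow, leadingCoeff_linear (by positivity)] at h1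
  have h2 := Int.le_abs_of_dvd (leadingCoeff_ne_zero.2 hf) h1
  have h3 := coeff_le_nrm zero_le_one f f.natDegree
  rw [one_pow, mul_one] at h3
  refine le_trans ?_ h3
  exact_mod_cast h2

end Pool.Agent.FS26
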