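import Pool.Agent.Lib.FS26.Three

/-! Counting the solutions that share one end of the block. -/

open Finset

noncomputable section

namespace Pool.Agent.FS26

/-- The primes in increasing order. -/
abbrev pr (i : ℕ) : ℕ := Nat.nth Nat.Prime i

theorem pr_mono : StrictMono pr := Nat.nth_strictMono Nat.infinite_setOfPred_prime

/-- The product over `J` is a binomial coefficient. -/
def Sol (J : Finset ℕ) : Prop := ∃ n, 4 ≤ n ∧ n.choose 2 = ∏ i ∈ J, pr i

theorem Sol.sq {J : Finset ℕ} (h : Sol J) : ∃ x, x ^ 2 = 8 * ∏ i ∈ J, pr i + 1 := by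
  obtain ⟨n, h1, h2⟩ := h
  obtain ⟨k, rfl⟩ : ∃ k, n = k + 1 := ⟨n - 1, by omega⟩
  have := Nat.add_one_mul_choose_eq k 1
  rw [Nat.choose_one_right, h2] at this
  exact ⟨2 * k + 1, by nlinarith⟩

theorem Sol.le {p q : ℕ} (h : Sol (Icc p q)) : p ≤ q := by
  obtain ⟨n, h1, h2⟩ := h
  by_contra h
  rw [Icc_eq_empty h, prod_empty] at h2
  have := Nat.choose_le_choose 2 h1
  rw [h2] at this
  exact absurd this (by decide)

/-- The width of the windows. -/
def wd (y : ℕ) : ℕ := 7200 * (2 * Nat.log 2 (Nat.log 2 y) + 6)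

theorem tri {y b : ℕ} (hy : 16 ≤ y) (hb : y.sqrt ≤ b) (hb' : pr b ≤ y) {J₀ J₁ J₂ : Finset ℕ}
    (s₀ : Sol J₀) (s₁ : Sol J₁) (s₂ : Sol J₂) (h₁ : J₀ ⊆ J₁) (h₂ : J₁ ⊆ J₂)
    (c₁ : J₀.card < J₁.card) (c₂ : J₁.card < J₂.card) (e₁ : J₀.card % 2 = J₁.card % 2)
    (e₂ : J₀.card % 2 = J₂.card % 2) (c₃ : J₂.card ≤ J₀.card + Nat.log 2 y / wd y)
    (c₀ : Nat.log 2 y ^ 2 ≤ J₀.card) (hJ : ∀ i ∈ J₀, pr i ≤ y)
    (hI : ∀ i ∈ J₂, i ∉ J₀ → pr b ≤ pr i ∧ pr i < pr b + Nat.log 2 y ^ 2) : False := by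
  obtain ⟨x₀, x0⟩ := s₀.sq
  obtain ⟨x₁, x1⟩ := s₁.sq
  obtain ⟨x₂, x2⟩ := s₂.sq
  have b2 : b + 2 ≤ pr b := Nat.add_two_le_nth_prime b
  obtain ⟨N, hN⟩ : ∃ N, pr b = N + 1 := ⟨pr b - 1, by omega⟩
  have yN : y < N * N := (Nat.lt_succ_sqrt y).trans_le (Nat.mul_self_le_mul_self (by omega))
  have inj : ∀ I ⊆ J₂ \ J₀, Set.InjOn (fun i => pr i - N) I := fun I hI' i hi j hj h => by
    have a := hI i (mem_sdiff.1 (hI' hi)).1 (mem_sdiff.1 (hI' hi)).2
    have b := hI j (mem_sdiff.1 (hI' hj)).1 (mem_sdiff.1 (hI' hj)).2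
    exact pr_mono.injective (by simp only at h; omega)
  have key : ∀ J, J₀ ⊆ J → J ⊆ J₂ → ∀ x, x ^ 2 = 8 * ∏ i ∈ J, pr i + 1 →
      x ^ 2 + ∏ a ∈ (J \ J₀).image (fun i => pr i - N), (N + a)
        = (∏ a ∈ (J \ J₀).image (fun i => pr i - N), (N + a)) * x₀ ^ 2 + 1 := fun J a b x hx => by
    rw [prod_image (inj _ (sdiff_subset_sdiff b Subset.rfl)),
      prod_congr rfl (g := pr) fun i hi => by
        have := hI i (b (mem_sdiff.1 hi).1) (mem_sdiff.1 hi).2
        omega, hx, x0, ← prod_sdiff a]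
    ring
  have t₁ : J₁ \ J₀ ⊆ J₂ \ J₀ := sdiff_subset_sdiff h₂ Subset.rfl
  have t₂ : J₂ \ J₁ ⊆ J₂ \ J₀ := sdiff_subset_sdiff Subset.rfl h₁
  have un : (J₁ \ J₀).image (fun i => pr i - N) ∪ (J₂ \ J₁).image (fun i => pr i - N)
      = (J₂ \ J₀).image (fun i => pr i - N) := by
    rw [← image_union, union_comm, sdiff_union_sdiff_cancel h₂ h₁]
  have l4 : 4 ≤ Nat.log 2 y := Nat.le_log_of_pow_le one_lt_two hy
  have l2 : 2 ≤ Nat.log 2 (Nat.log 2 y) := Nat.le_log_of_pow_le one_lt_two l4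
  have l0 := Nat.pow_log_le_self 2 (x := y) (by omega)
  have l1 := Nat.lt_pow_succ_log_self one_lt_two y
  have l3 := Nat.lt_pow_succ_log_self one_lt_two (Nat.log 2 y)
  have l5 := Nat.div_mul_le_self (Nat.log 2 y) (wd y)
  have P1 : 2 ^ J₀.card ≤ ∏ i ∈ J₀, pr i :=
    pow_card_le_prod _ _ _ fun i _ => (Nat.prime_nth_prime i).two_le
  have P2 : ∏ i ∈ J₀, pr i ≤ 4 ^ y := by
    refine le_trans ?_ (primorial_le_four_pow y)
    rw [primorial, ← prod_image (f := fun p => p) pr_mono.injective.injOn]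
    refine prod_le_prod_of_subset_of_one_le' (fun p hp => ?_) fun p hp _ =>
      (mem_filter.1 hp).2.one_le
    obtain ⟨i, hi, rfl⟩ := mem_image.1 hp
    exact mem_filter.2 ⟨mem_range.2 (Nat.lt_succ_of_le (hJ i hi)), Nat.prime_nth_prime i⟩
  generalize Nat.log 2 y / wd y = w at *
  rw [wd] at l5
  generalize Nat.log 2 (Nat.log 2 y) = k at *
  generalize Nat.log 2 y = l at *
  refine three (S₁ := (J₁ \ J₀).image fun i => pr i - N) (S₂ := (J₂ \ J₁).image fun i => pr i - N)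
    (A := l ^ 2) (w := w) (u₁ := (J₁.card - J₀.card) / 2) (u₂ := (J₂.card - J₀.card) / 2)
    (disjoint_left.2 fun a a1 a2 => ?_) ?_ ?_ ?_ ?_ (by omega) (fun a ha => ?_) ?_ ?_ ?_
    (key J₁ h₁ h₂ x₁ x1) (un ▸ key J₂ (h₁.trans h₂) Subset.rfl x₂ x2)
  · obtain ⟨i, hi, rfl⟩ := mem_image.1 a1
    obtain ⟨j, hj, h⟩ := mem_image.1 a2
    rw [inj _ Subset.rfl (t₂ hj) (t₁ hi) h] at hj
    exact (mem_sdiff.1 hj).2 (mem_sdiff.1 hi).1
  · exact (sdiff_nonempty_of_card_lt_card c₁).image _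
  · exact (sdiff_nonempty_of_card_lt_card c₂).image _
  · rw [card_image_of_injOn (inj _ t₁), card_sdiff_of_subset h₁]
    omega
  · rw [un, card_image_of_injOn (inj _ Subset.rfl), card_sdiff_of_subset (h₁.trans h₂)]
    omega
  · rw [un] at ha
    obtain ⟨i, hi, rfl⟩ := mem_image.1 ha
    have := hI i (mem_sdiff.1 hi).1 (mem_sdiff.1 hi).2
    omega
  · refine (Nat.pow_le_pow_iff_left two_ne_zero).1 ?_
    have : 16 * l ^ 2 ≤ 2 ^ (2 * k + 6) := by
      have := Nat.pow_le_pow_left l3.le 2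
      calc 16 * l ^ 2 ≤ 16 * (2 ^ (k + 1)) ^ 2 := Nat.mul_le_mul_left _ this
        _ = _ := by ring
    calc ((16 * l ^ 2) ^ (3600 * w)) ^ 2 ≤ ((2 ^ (2 * k + 6)) ^ (3600 * w)) ^ 2 := by gcongr
      _ = 2 ^ (w * (7200 * (2 * k + 6))) := by
        rw [← pow_mul, ← pow_mul]
        congr 1
        ring
      _ ≤ 2 ^ l := Nat.pow_le_pow_right two_pos l5
      _ ≤ _ := by nlinarith
  · refine (Nat.pow_le_pow_iff_left two_ne_zero).1 ?_
    have : 4 * N ≤ 2 ^ (l + 3) := by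
      rw [Nat.succ_eq_add_one, pow_succ] at l1
      rw [pow_add]
      omega
    have h3 : w * 72000 ≤ l := (Nat.mul_le_mul_left w (by omega)).trans l5
    calc ((4 * N) ^ (2400 * w)) ^ 2 ≤ ((2 ^ (l + 3)) ^ (2400 * w)) ^ 2 := by gcongr
      _ ≤ 2 ^ J₀.card := by
        rw [← pow_mul, ← pow_mul]
        exact Nat.pow_le_pow_right two_pos (le_trans (by nlinarith) c₀)
      _ ≤ _ := by omega
  · refine (Nat.pow_le_pow_iff_left two_ne_zero).1 ?_
    have : 0 < 4 ^ y := by positivity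
    calc x₀ ^ 2 ≤ 4 ^ (y + 2) := by
          rw [pow_add]
          omega
      _ ≤ 4 ^ (4 * N) ^ 2 := Nat.pow_le_pow_right (by norm_num) (by nlinarith)
      _ = _ := by rw [← pow_mul, mul_comm _ 2, pow_mul]; norm_num

theorem lt_add_of_div {a b A : ℕ} (hA : 0 < A) (h : a / A = b / A) : b < a + A := by
  have h1 := Nat.div_add_mod b A
  have h2 := Nat.mod_lt b hA
  have h3 := Nat.mul_div_le a A
  rw [h] at h3
  omega

theorem card_le {G : Finset ℕ} {y A w : ℕ} (hA : 0 < A) (hw : 0 < w) (h : ∀ q ∈ G, pr q ≤ y)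
    (h3 : ∀ a ∈ G, ∀ b ∈ G, ∀ c ∈ G, a < b → b < c → a % 2 = b % 2 → a % 2 = c % 2 →
      pr c < pr a + A → c < a + w → False) :
    G.card ≤ 4 * (y / A + y.primeCounting / w + 1) := by
  have := card_le_mul_card_image_of_maps_to (f := fun q => (pr q / A + q / w, q % 2)) (s := G)
    (t := range (y / A + y.primeCounting / w + 1) ×ˢ range 2) (fun q hq => ?_) 2 fun z _ => ?_
  · rw [card_product, card_range, card_range] at this
    omega
  · have h1 := Nat.div_le_div_right (c := A) (h q hq)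
    have h2 : q ≤ y.primeCounting := by
      by_contra h0
      have := (Nat.count_le_iff_le_nth Nat.infinite_setOfPred_prime).1 (not_le.1 h0).le
      exact absurd (h q hq) (not_le.2 this)
    have h3 := Nat.div_le_div_right (c := w) h2
    simp only [mem_product, mem_range]
    omega
  · by_contra h0
    have h1 := fun i => mem_filter.1 (orderEmbOfCardLe_mem _ (not_le.1 h0) i)
    have h2 := (orderEmbOfCardLe _ (not_le.1 h0)).strictMono
    generalize orderEmbOfCardLe _ (not_le.1 h0) = e at *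
    have a1 : e 0 < e 1 := h2 (by decide)
    have a2 : e 1 < e 2 := h2 (by decide)
    have b1 := Prod.ext_iff.1 ((h1 0).2.trans (h1 1).2.symm)
    have b2 := Prod.ext_iff.1 ((h1 0).2.trans (h1 2).2.symm)
    have c1 := Nat.div_le_div_right (c := A) (pr_mono (a1.trans a2)).le
    have c2 := Nat.div_le_div_right (c := w) (a1.trans a2).le
    simp only at b1 b2
    exact h3 _ (h1 0).1 _ (h1 1).1 _ (h1 2).1 a1 a2 b1.2 b2.2 (lt_add_of_div hA (by omega))
      (lt_add_of_div hw (by omega))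

theorem final {y : ℕ} (hy : 16 ≤ y) {S : Set ℕ} {a : ℕ} (h : ∀ q ∈ S, pr q ≤ y)
    (h3 : ∀ G : Set ℕ, G = {q ∈ S | y.sqrt ≤ q ∧ q ∉ Ico a (a + Nat.log 2 y ^ 2)} →
      ∀ a ∈ G, ∀ b ∈ G, ∀ c ∈ G, a < b → b < c → a % 2 = b % 2 → a % 2 = c % 2 →
      pr c < pr a + Nat.log 2 y ^ 2 → c < a + Nat.log 2 y / wd y → False) :
    (S.ncard : ℝ) ≤ 2 * 10 ^ 7 * y * Real.log (Real.log y) / Real.log y ^ 2 := by
  classical
  have l4 : 4 ≤ Nat.log 2 y := Nat.le_log_of_pow_le one_lt_two hy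
  have hS : S ⊆ range y.primeCounting := fun q hq => by
    by_contra h0
    have := (Nat.count_le_iff_le_nth Nat.infinite_setOfPred_prime).1
      (not_lt.1 fun h1 => h0 (mem_coe.2 (mem_range.2 h1)))
    exact absurd (h q hq) (not_le.2 this)
  obtain ⟨S, rfl⟩ := ((finite_toSet _).subset hS).exists_finset_coe
  rw [Set.ncard_coe_finset]
  have l0 : (2 : ℝ) ^ Nat.log 2 y ≤ y := by exact_mod_cast Nat.pow_log_le_self 2 (x := y) (by omega)
  have l1 : (y : ℝ) ≤ 2 ^ (Nat.log 2 y + 1) := by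
    exact_mod_cast (Nat.lt_pow_succ_log_self one_lt_two y).le
  have l3 : (2 : ℝ) ^ Nat.log 2 (Nat.log 2 y) ≤ Nat.log 2 y := by
    exact_mod_cast Nat.pow_log_le_self 2 (x := Nat.log 2 y) (by omega)
  have y0 : (16 : ℝ) ≤ y := by exact_mod_cast hy
  have l4' : (4 : ℝ) ≤ Nat.log 2 y := by exact_mod_cast l4
  have W0 : 0 < wd y := by simp [wd]
  have main : (S.card : ℝ) ≤ √y + 2 * Nat.log 2 y ^ 2 + 4 * (y / Nat.log 2 y ^ 2)
      + 8 * (y.primeCounting * wd y / Nat.log 2 y) := by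
    rcases Nat.eq_zero_or_pos (Nat.log 2 y / wd y) with h0 | h0
    · have h1 : (Nat.log 2 y : ℝ) ≤ wd y := by
        exact_mod_cast ((Nat.div_eq_zero_iff_lt W0).1 h0).le
      have h2 : (S.card : ℝ) ≤ y.primeCounting := by
        exact_mod_cast (card_le_card (coe_subset.1 hS)).trans_eq (card_range _)
      have h3 : (y.primeCounting : ℝ) ≤ y.primeCounting * wd y / Nat.log 2 y := by
        rw [le_div_iff₀ (by linarith)]
        gcongr
      have : (0 : ℝ) ≤ √y + 2 * Nat.log 2 y ^ 2 + 4 * (y / Nat.log 2 y ^ 2) := by positivity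
      have : (0 : ℝ) ≤ y.primeCounting := by positivity
      linarith
    · have h1 := card_le (G := S.filter fun q => y.sqrt ≤ q ∧ q ∉ Ico a (a + Nat.log 2 y ^ 2))
        (by positivity) h0 (fun q hq => h q (mem_filter.1 hq).1) (h3 _ (coe_filter _ _))
      have h2 : S ⊆ (range y.sqrt ∪ Ico a (a + Nat.log 2 y ^ 2))
          ∪ S.filter fun q => y.sqrt ≤ q ∧ q ∉ Ico a (a + Nat.log 2 y ^ 2) := fun q hq => by
        simp only [mem_union, mem_range, mem_filter, hq, true_and, ← not_le]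
        tauto
      have h4 := (card_le_card h2).trans ((card_union_le _ _).trans
        (add_le_add (card_union_le _ _) h1))
      rw [card_range, Nat.card_Ico, Nat.add_sub_cancel_left] at h4
      have h5 : (S.card : ℝ) ≤ y.sqrt + Nat.log 2 y ^ 2 + 4 * ((y / Nat.log 2 y ^ 2 : ℕ)
          + (y.primeCounting / (Nat.log 2 y / wd y) : ℕ) + 1) := by exact_mod_cast h4
      have h6 : ((y / Nat.log 2 y ^ 2 : ℕ) : ℝ) ≤ y / Nat.log 2 y ^ 2 := by
        exact Nat.cast_div_le.trans_eq (by rw [Nat.cast_pow])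
      have h7 : ((y.primeCounting / (Nat.log 2 y / wd y) : ℕ) : ℝ)
          ≤ 2 * (y.primeCounting * wd y / Nat.log 2 y) := by
        refine Nat.cast_div_le.trans ?_
        have e : Nat.log 2 y ≤ 2 * wd y * (Nat.log 2 y / wd y) := by
          have := Nat.lt_mul_div_succ (Nat.log 2 y) W0
          nlinarith
        have e' : (Nat.log 2 y : ℝ) ≤ 2 * wd y * (Nat.log 2 y / wd y : ℕ) := by exact_mod_cast e
        rw [← mul_div_assoc, div_le_div_iff₀ (by exact_mod_cast h0) (by linarith)]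
        have := mul_le_mul_of_nonneg_left e' (Nat.cast_nonneg y.primeCounting)
        linarith
      have h8 : (y.sqrt : ℝ) ≤ √y := Real.nat_sqrt_le_real_sqrt
      nlinarith
  have hπ := Chebyshev.pi_le_log4_mul_div (x := y) (by linarith)
  rw [Nat.floor_natCast, Real.log_sqrt (by linarith), show (4 : ℝ) = 2 ^ 2 by norm_num,
    Real.log_pow] at hπ
  have t1 := Real.log_two_gt_d9
  have t2 := Real.log_two_lt_d9
  have a0 := Real.log_le_log (by positivity) l0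
  have a1 := Real.log_le_log (by positivity) l1
  have a3 := Real.log_le_log (by positivity) l3
  rw [Real.log_pow] at a0 a1 a3
  have hW : (wd y : ℝ) = 7200 * (2 * Nat.log 2 (Nat.log 2 y) + 6) := by simp [wd]
  rw [hW] at main
  have k0 : (0 : ℝ) ≤ Nat.log 2 (Nat.log 2 y) := by positivity
  generalize (Nat.log 2 (Nat.log 2 y) : ℝ) = k at *
  push_cast at a1 hπ
  generalize (Nat.log 2 y : ℝ) = l at *
  have s0 : 0 < √(y : ℝ) := by positivity
  have s1 : √(y : ℝ) ^ 2 = y := Real.sq_sqrt (by linarith)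
  have s2 : Real.log y ^ 2 ≤ 16 * √(y : ℝ) := by
    have h1 := Real.log_le_sub_one_of_pos (Real.sqrt_pos.2 s0)
    rw [Real.log_sqrt s0.le, Real.log_sqrt (by linarith)] at h1
    have h2 := Real.sq_sqrt s0.le
    have h3 := Real.log_nonneg (x := y) (by linarith)
    nlinarith
  have b0 : Real.log y ≤ l := by nlinarith
  have b1 : l ≤ 2 * Real.log y := by nlinarith
  have b2 : Real.exp 1 ≤ Real.log y := by
    have := Real.exp_one_lt_d9
    nlinarith
  have L0 : 1 ≤ Real.log y := by linarith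
  have b3 : 1 ≤ Real.log (Real.log y) := (Real.le_log_iff_exp_le (by linarith)).2 b2
  have b4 := Real.log_le_log (by linarith) b1
  rw [Real.log_mul two_ne_zero (by linarith)] at b4
  generalize Real.log (Real.log y) = K at *
  generalize Real.log y = L at *
  generalize √(y : ℝ) = s at *
  have b5 : 7200 * (2 * k + 6) ≤ 100800 * K := by nlinarith
  have c1 : s ≤ 16 * (y / L ^ 2) := by
    rw [← mul_div_assoc, le_div_iff₀ (by positivity)]
    nlinarith
  have c2 : l ^ 2 ≤ 1024 * (y / L ^ 2) := by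
    rw [← mul_div_assoc, le_div_iff₀ (by positivity)]
    have h1 : l ^ 2 ≤ 4 * L ^ 2 := by nlinarith
    have h2 : L ^ 2 * L ^ 2 ≤ 16 * s * (16 * s) := by gcongr
    nlinarith
  have c3 : y / l ^ 2 ≤ y / L ^ 2 := by gcongr
  have c4 : (y.primeCounting : ℝ) ≤ 20 * (y / L) := by
    have h1 : y / L ^ 2 ≤ y / L := by
      gcongr
      nlinarith
    have h2 : 2 * Real.log 2 * y / (L / 2) = 4 * Real.log 2 * (y / L) := by
      field_simp
      norm_num
    have h3 : 0 ≤ y / L := by positivity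
    nlinarith
  have c5 : y.primeCounting * (7200 * (2 * k + 6)) / l ≤ 2016000 * K * (y / L ^ 2) := calc
    _ ≤ 20 * (y / L) * (100800 * K) / L := by gcongr
    _ = _ := by
      field_simp
      norm_num
  have c6 : 2 * 10 ^ 7 * y * K / L ^ 2 = 2 * 10 ^ 7 * K * (y / L ^ 2) := by ring
  have c7 : 0 ≤ y / L ^ 2 := by positivity
  rw [c6]
  nlinarith

theorem fixed_start {y : ℕ} (hy : 16 ≤ y) (p : ℕ) :
    ({q | pr q ≤ y ∧ Sol (Icc p q)}.ncard : ℝ)
      ≤ 2 * 10 ^ 7 * y * Real.log (Real.log y) / Real.log y ^ 2 := by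
  refine final hy (a := p) (fun q hq => hq.1) ?_
  rintro G rfl a ⟨⟨a1, a2⟩, a3, a4⟩ b ⟨⟨-, b2⟩, -⟩ c ⟨⟨-, c2⟩, -⟩ h1 h2 h3 h4 h5 h6
  have := a2.le
  rw [mem_Ico] at a4
  refine tri hy a3 a1 a2 b2 c2 (Icc_subset_Icc_right h1.le) (Icc_subset_Icc_right h2.le)
    ?_ ?_ ?_ ?_ ?_ ?_ (fun i hi => (pr_mono.monotone (mem_Icc.1 hi).2).trans a1) fun i hi hi' => ?_
  any_goals simp only [Nat.card_Icc]; omega
  rw [mem_Icc] at hi hi'
  exact ⟨pr_mono.monotone (by omega), (pr_mono.monotone hi.2).trans_lt h5⟩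

theorem fixed_end {y : ℕ} (hy : 16 ≤ y) {q : ℕ} (hq : pr q ≤ y) :
    ({p | Sol (Icc p q)}.ncard : ℝ) ≤ 2 * 10 ^ 7 * y * Real.log (Real.log y) / Real.log y ^ 2 := by
  have h0 : ∀ p, Sol (Icc p q) → pr p ≤ y := fun p hp => (pr_mono.monotone hp.le).trans hq
  refine final hy (a := q + 1 - Nat.log 2 y ^ 2) h0 ?_
  rintro G rfl a ⟨a2, a3, -⟩ b ⟨b2, -⟩ c ⟨c2, -, c4⟩ h1 h2 h3 h4 h5 h6
  have := Sol.le c2
  rw [mem_Ico] at c4
  refine tri hy a3 (h0 a a2) c2 b2 a2 (Icc_subset_Icc_left h2.le) (Icc_subset_Icc_left h1.le)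
    ?_ ?_ ?_ ?_ ?_ ?_ (fun i hi => (pr_mono.monotone (mem_Icc.1 hi).2).trans hq) fun i hi hi' => ?_
  any_goals simp only [Nat.card_Icc]; omega
  rw [mem_Icc] at hi hi'
  exact ⟨pr_mono.monotone hi.1, (pr_mono.monotone (by omega)).trans_lt h5⟩

end Pool.Agent.FS26
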