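import Mathlib

/-! Weighted `ℓ¹` norms of integer polynomials. -/

open Polynomial Finset

noncomputable section

namespace Pool.Agent.FS26

/-- The polynomial of the absolute values of the coefficients. -/
def ab (p : ℤ[X]) : ℝ[X] := p.sum fun i a => monomial i |(a : ℝ)|

theorem coeff_ab (p : ℤ[X]) (i : ℕ) : (ab p).coeff i = |(p.coeff i : ℝ)| := by
  rw [ab, sum_def, finsetSum_coeff]
  simp only [coeff_monomial]
  rw [Finset.sum_ite_eq']
  split_ifs with h
  · rfl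
  · rw [notMem_support_iff.1 h]
    simp

theorem eval_mono {P Q : ℝ[X]} (h : ∀ i, P.coeff i ≤ Q.coeff i) {r : ℝ} (hr : 0 ≤ r) :
    P.eval r ≤ Q.eval r := by
  rw [eval_eq_sum_range' (Nat.lt_succ_of_le (le_max_left P.natDegree Q.natDegree)),
    eval_eq_sum_range' (Nat.lt_succ_of_le (le_max_right P.natDegree Q.natDegree))]
  exact sum_le_sum fun i _ => mul_le_mul_of_nonneg_right (h i) (pow_nonneg hr i)

/-- The weighted norm. -/
def nrm (r : ℝ) (p : ℤ[X]) : ℝ := (ab p).eval r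

variable {r : ℝ}

theorem nrm_eq (r : ℝ) {p : ℤ[X]} {n : ℕ} (h : p.natDegree < n) :
    nrm r p = ∑ i ∈ range n, |(p.coeff i : ℝ)| * r ^ i := by
  have h1 : (ab p).natDegree < n := by
    refine lt_of_le_of_lt (natDegree_le_iff_coeff_eq_zero.2 fun i hi => ?_) h
    rw [coeff_ab, coeff_eq_zero_of_natDegree_lt hi]
    simp
  rw [nrm, eval_eq_sum_range' h1]
  simp only [coeff_ab]

theorem nrm_nonneg (hr : 0 ≤ r) (p : ℤ[X]) : 0 ≤ nrm r p := by
  rw [nrm_eq r (Nat.lt_succ_self _)]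
  positivity

theorem nrm_le_nrm (hr : 0 ≤ r) {p q : ℤ[X]} (h : ∀ i, |(p.coeff i : ℝ)| ≤ |(q.coeff i : ℝ)|) :
    nrm r p ≤ nrm r q :=
  eval_mono (fun i => by rw [coeff_ab, coeff_ab]; exact h i) hr

theorem nrm_add (hr : 0 ≤ r) (p q : ℤ[X]) : nrm r (p + q) ≤ nrm r p + nrm r q := by
  rw [nrm, nrm, nrm, ← eval_add]
  refine eval_mono (fun i => ?_) hr
  simp only [coeff_add, coeff_ab, Int.cast_add]
  exact abs_add_le _ _

theorem nrm_sub (hr : 0 ≤ r) (p q : ℤ[X]) : nrm r (p - q) ≤ nrm r p + nrm r q := by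
  rw [nrm, nrm, nrm, ← eval_add]
  refine eval_mono (fun i => ?_) hr
  simp only [coeff_add, coeff_sub, coeff_ab, Int.cast_sub]
  exact abs_sub _ _

theorem nrm_mul (hr : 0 ≤ r) (p q : ℤ[X]) : nrm r (p * q) ≤ nrm r p * nrm r q := by
  rw [nrm, nrm, nrm, ← eval_mul]
  refine eval_mono (fun i => ?_) hr
  simp only [coeff_mul, coeff_ab, Int.cast_sum, Int.cast_mul]
  exact (abs_sum_le_sum_abs _ _).trans (sum_le_sum fun c _ => (abs_mul _ _).le)

theorem nrm_mul_le (hr : 0 ≤ r) {p q : ℤ[X]} {a b : ℝ} (hp : nrm r p ≤ a) (hq : nrm r q ≤ b) :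
    nrm r (p * q) ≤ a * b :=
  (nrm_mul hr p q).trans (mul_le_mul hp hq (nrm_nonneg hr q) ((nrm_nonneg hr p).trans hp))

theorem nrm_monomial (r : ℝ) (i : ℕ) (a : ℤ) : nrm r (monomial i a) = |(a : ℝ)| * r ^ i := by
  rw [nrm, ab, sum_monomial_index _ _ (by simp), eval_monomial]

theorem nrm_one (r : ℝ) : nrm r 1 = 1 := by
  simpa using nrm_monomial r 0 1

theorem nrm_sum (hr : 0 ≤ r) {ι : Type} (s : Finset ι) (f : ι → ℤ[X]) :
    nrm r (∑ i ∈ s, f i) ≤ ∑ i ∈ s, nrm r (f i) := by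
  classical
  induction s using Finset.induction_on with
  | empty => simp [nrm, ab]
  | insert a s ha ih =>
    rw [sum_insert ha, sum_insert ha]
    exact (nrm_add hr _ _).trans (add_le_add_right ih _)

theorem nrm_prod (hr : 0 ≤ r) {ι : Type} (s : Finset ι) (f : ι → ℤ[X]) {b : ℝ}
    (h : ∀ i ∈ s, nrm r (f i) ≤ b) : nrm r (∏ i ∈ s, f i) ≤ b ^ s.card := by
  classical
  induction s using Finset.induction_on with
  | empty => simp [nrm_one]
  | insert a s ha ih =>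
    rw [prod_insert ha, card_insert_of_notMem ha, pow_succ']
    exact nrm_mul_le hr (h a (mem_insert_self a s)) (ih fun i hi => h i (mem_insert_of_mem hi))

theorem nrm_mono {r r' : ℝ} (hr : 0 ≤ r) (h : r ≤ r') (p : ℤ[X]) : nrm r p ≤ nrm r' p := by
  rw [nrm_eq r (Nat.lt_succ_self _), nrm_eq r' (Nat.lt_succ_self _)]
  gcongr

theorem coeff_le_nrm (hr : 0 ≤ r) (p : ℤ[X]) (i : ℕ) : |(p.coeff i : ℝ)| * r ^ i ≤ nrm r p := by
  rw [nrm_eq r (Nat.lt_succ_of_le (le_max_left p.natDegree i))]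
  exact single_le_sum (f := fun i => |(p.coeff i : ℝ)| * r ^ i) (fun i _ => by positivity)
    (mem_range.2 (Nat.lt_succ_of_le (le_max_right _ _)))

theorem aeval_le_nrm (hr : 0 ≤ r) (p : ℤ[X]) : |aeval r p| ≤ nrm r p := by
  rw [nrm_eq r (Nat.lt_succ_self _), aeval_eq_sum_range]
  refine (abs_sum_le_sum_abs _ _).trans (sum_le_sum fun i _ => ?_)
  rw [zsmul_eq_mul, abs_mul, abs_of_nonneg (pow_nonneg hr i)]

theorem nrm_derivative {p : ℤ[X]} {d : ℕ} (h : p.natDegree ≤ d) :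
    nrm 1 (derivative p) ≤ d * nrm 1 p := by
  have h1 : (X * ab (derivative p)).eval 1 ≤ (C (d : ℝ) * ab p).eval 1 := by
    refine eval_mono (fun i => ?_) zero_le_one
    rw [coeff_C_mul, coeff_ab]
    cases i with
    | zero => rw [coeff_X_mul_zero]; positivity
    | succ i =>
      rw [coeff_X_mul, coeff_ab, coeff_derivative]
      rcases le_or_gt (i + 1) d with h2 | h2
      · push_cast
        rw [abs_mul, mul_comm, abs_of_nonneg (by positivity : (0 : ℝ) ≤ i + 1)]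
        exact mul_le_mul_of_nonneg_right (by exact_mod_cast h2) (abs_nonneg _)
      · rw [coeff_eq_zero_of_natDegree_lt (h.trans_lt h2)]
        simp
  simpa [nrm] using h1

theorem aeval_le_of_dvd {α : ℝ} (hα : 0 ≤ α) (hr : 0 < r) (h : α ≤ r) {p : ℤ[X]} {m : ℕ}
    (hp : X ^ m ∣ p) : |aeval α p| ≤ (α / r) ^ m * nrm r p := by
  obtain ⟨q, rfl⟩ := hp
  have h1 : nrm r (X ^ m * q) = r ^ m * nrm r q := by
    have : ab (X ^ m * q) = X ^ m * ab q := by
      ext i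
      rw [coeff_ab, coeff_X_pow_mul', coeff_X_pow_mul', coeff_ab]
      split_ifs <;> simp
    rw [nrm, this, eval_mul, eval_pow, eval_X, nrm]
  rw [h1, map_mul, map_pow, aeval_X, abs_mul, abs_of_nonneg (pow_nonneg hα m), ← mul_assoc,
    ← mul_pow, div_mul_cancel₀ _ hr.ne']
  exact mul_le_mul_of_nonneg_left ((aeval_le_nrm hα q).trans (nrm_mono hα h q)) (pow_nonneg hα m)

theorem exists_int {M : ℕ} (hM : 0 < M) {p : ℤ[X]} {d : ℕ} (h : p.natDegree ≤ d) :
    ∃ q : ℤ, (q : ℝ) = (M : ℝ) ^ d * aeval (M : ℝ)⁻¹ p := by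
  refine ⟨∑ i ∈ range (p.natDegree + 1), p.coeff i * M ^ (d - i), ?_⟩
  have h0 : (M : ℝ) ≠ 0 := by positivity
  rw [aeval_eq_sum_range, mul_sum]
  push_cast
  refine sum_congr rfl fun i hi => ?_
  have hi' : i ≤ d := (Nat.lt_succ_iff.1 (mem_range.1 hi)).trans h
  rw [zsmul_eq_mul, pow_sub₀ _ h0 hi', inv_pow]
  ring

end Pool.Agent.FS26
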