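import Pool.Agent.Lib.FS26.Nrm
import Pool.Agent.Lib.FS26.Alg

/-! Truncated square roots of products of the polynomials `1 + 4 a X`. -/

open Polynomial Finset

noncomputable section

namespace Pool.Agent.FS26

/-- The polynomial `1 + 4 a X`. -/
def lin (a : ℕ) : ℤ[X] := 1 + monomial 1 (4 * a : ℤ)

/-- The product of the polynomials `1 + 4 a X`. -/
def TS (S : Finset ℕ) : ℤ[X] := ∏ a ∈ S, lin a

theorem aeval_lin (α : ℝ) (a : ℕ) : aeval α (lin a) = 1 + 4 * a * α := by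
  simp [lin, aeval_monomial]

theorem aeval_TS (α : ℝ) (S : Finset ℕ) : aeval α (TS S) = ∏ a ∈ S, (1 + 4 * a * α) := by
  simp [TS, aeval_lin]

theorem nrm_lin {r : ℝ} (hr : 0 ≤ r) (a : ℕ) : nrm r (lin a) ≤ 1 + 4 * a * r := by
  refine (nrm_add hr _ _).trans ?_
  rw [nrm_one, nrm_monomial]
  push_cast
  rw [abs_of_nonneg (by positivity), pow_one]

theorem natDegree_TS (S : Finset ℕ) : (TS S).natDegree ≤ S.card := by
  refine (natDegree_prod_le _ _).trans ?_
  rw [card_eq_sum_ones]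
  exact sum_le_sum fun a _ => natDegree_add_le_of_degree_le (by simp) (natDegree_monomial_le _)

theorem rt_lin (a : ℕ) (ha : 0 < a) : Rt (-(4 * a : ℝ)⁻¹) :=
  ⟨4 * a, 1, rfl, by
    have : (a : ℝ) ≠ 0 := by positivity
    push_cast
    field_simp
    ring⟩

theorem TS_ne {S : Finset ℕ} {a : ℕ} (ha : 0 < a) (h : a ∉ S) :
    aeval (-(4 * a : ℝ)⁻¹) (TS S) ≠ 0 := by
  rw [aeval_TS]
  refine prod_ne_zero_iff.2 fun b hb h0 => h ?_
  have : (a : ℝ) ≠ 0 := by positivity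
  field_simp at h0
  have h1 : (a : ℝ) = b := by linarith
  rwa [Nat.cast_injective h1]

theorem TS_root {S : Finset ℕ} {a : ℕ} (ha : 0 < a) (h : a ∈ S) :
    aeval (-(4 * a : ℝ)⁻¹) (TS S) = 0 ∧ aeval (-(4 * a : ℝ)⁻¹) (derivative (TS S)) ≠ 0 := by
  have h0 : (a : ℝ) ≠ 0 := by positivity
  have h1 : aeval (-(4 * a : ℝ)⁻¹) (lin a) = 0 := by
    rw [aeval_lin]
    field_simp
    ring
  have h2 := TS_ne ha (notMem_erase a S)
  have h3 : TS S = lin a * TS (S.erase a) := (mul_prod_erase S lin h).symm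
  have h4 : aeval (-(4 * a : ℝ)⁻¹) (derivative (lin a)) ≠ 0 := by
    simp [lin, map_ofNat, ha.ne']
  rw [h3, derivative_mul, map_add, map_mul, map_mul, map_mul, h1, zero_mul, zero_mul, add_zero]
  exact ⟨rfl, mul_ne_zero h4 h2⟩

theorem exists_sq (a m : ℕ) {r : ℝ} (hr : 0 ≤ r) (h : 8 * a * r ≤ 1) :
    ∃ s : ℤ[X], X ^ m ∣ s ^ 2 - lin a ∧ s.coeff 0 = 1 ∧ nrm r s ≤ 2 ∧
      ∀ α, 0 ≤ α → α ≤ r → 0 ≤ aeval α s := by
  set c : ℤ[X] := ∑ j ∈ range m, monomial j ((-a) ^ j * catalan j : ℤ) with hc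
  have h1 : ∀ j < m, c.coeff j = (-a) ^ j * catalan j := fun j hj => by
    rw [hc, finsetSum_coeff]
    simp only [coeff_monomial]
    rw [Finset.sum_ite_eq', if_pos (mem_range.2 hj)]
  have h2 : X ^ m ∣ c + C (a : ℤ) * (X * (c * c)) - 1 := by
    refine X_pow_dvd_iff.2 fun d hd => ?_
    rw [coeff_sub, coeff_add, coeff_C_mul, h1 d hd]
    cases d with
    | zero => simp
    | succ d =>
      rw [coeff_X_mul, coeff_mul, catalan_succ', coeff_one, if_neg d.succ_ne_zero, sub_zero]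
      push_cast
      rw [mul_sum, mul_sum, ← sum_add_distrib]
      refine sum_eq_zero fun x hx => ?_
      have := mem_antidiagonal.1 hx
      rw [h1 _ (by omega), h1 _ (by omega), ← this]
      ring
  have h3 : nrm r c ≤ 2 := by
    refine (nrm_sum hr _ _).trans ((sum_le_sum fun j _ => ?_).trans (sum_geometric_two_le m))
    have e : (catalan j : ℝ) ≤ 4 ^ j := by
      exact_mod_cast (catalan_eq_centralBinom_div j ▸ Nat.div_le_self _ _).trans
        (Nat.centralBinom_le_four_pow j)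
    rw [nrm_monomial]
    push_cast
    rw [abs_mul, abs_pow, abs_neg, Nat.abs_cast, Nat.abs_cast]
    calc (a : ℝ) ^ j * catalan j * r ^ j ≤ a ^ j * 4 ^ j * r ^ j := by gcongr
      _ = (4 * a * r) ^ j := by ring
      _ ≤ _ := by gcongr; linarith
  have h4 : nrm r (monomial 1 (2 * a : ℤ) * c) ≤ 1 := by
    refine (nrm_mul_le hr (nrm_monomial r _ _).le h3).trans ?_
    push_cast
    rw [abs_of_nonneg (by positivity), pow_one]
    have : 0 ≤ a * r := by positivity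
    linarith
  refine ⟨1 + monomial 1 (2 * a : ℤ) * c, ?_, by simp [← C_mul_X_pow_eq_monomial], ?_,
    fun α h0 hα => ?_⟩
  · obtain ⟨x, hx⟩ := h2
    refine ⟨4 * C (a : ℤ) * X * x, ?_⟩
    simp only [lin, ← C_mul_X_pow_eq_monomial, map_mul, map_ofNat, pow_one]
    linear_combination 4 * C (a : ℤ) * X * hx
  · refine (nrm_add hr _ _).trans ?_
    rw [nrm_one]
    linarith
  · have := (abs_le.1 ((aeval_le_nrm h0 _).trans ((nrm_mono h0 hα _).trans h4))).1
    rw [map_add, map_one]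
    linarith

theorem exists_sqS (S : Finset ℕ) (m : ℕ) {r : ℝ} (hr : 0 ≤ r) (h : ∀ a ∈ S, 8 * a * r ≤ 1) :
    ∃ s : ℤ[X], X ^ m ∣ s ^ 2 - TS S ∧ s.coeff 0 = 1 ∧ nrm r s ≤ 2 ^ S.card ∧
      ∀ α, 0 ≤ α → α ≤ r → 0 ≤ aeval α s := by
  induction S using Finset.induction_on with
  | empty => exact ⟨1, by simp [TS], by simp, by simp [nrm_one], by simp⟩
  | insert a S ha ih =>
    obtain ⟨s, ⟨x, hx⟩, s2, s3, s4⟩ := ih fun b hb => h b (mem_insert_of_mem hb)
    obtain ⟨t, ⟨y, hy⟩, t2, t3, t4⟩ := exists_sq a m hr (h a (mem_insert_self a S))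
    refine ⟨t * s, ⟨t ^ 2 * x + TS S * y, ?_⟩, by rw [mul_coeff_zero, s2, t2, one_mul], ?_,
      fun α h0 hα => ?_⟩
    · rw [TS, prod_insert ha, ← TS]
      linear_combination t ^ 2 * hx + TS S * hy
    · rw [card_insert_of_notMem ha, pow_succ']
      exact nrm_mul_le hr t3 s3
    · rw [map_mul]
      exact mul_nonneg (t4 α h0 hα) (s4 α h0 hα)

theorem ode {g Q T U : ℤ[X]} {m : ℕ} (h : X ^ m ∣ g ^ 2 - Q) (h0 : g.coeff 0 = 1)
    (hT : T * derivative Q = 2 * U * Q) : X ^ (m - 1) ∣ T * derivative g - U * g := by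
  obtain ⟨x, hx⟩ := pow_sub_one_dvd_derivative_of_pow_dvd h
  obtain ⟨y, hy⟩ := (pow_dvd_pow X (Nat.sub_le m 1)).trans h
  simp only [derivative_sub, derivative_sq, map_ofNat] at hx
  refine prime_X.pow_dvd_of_dvd_mul_left _ (a := 2 * g) ?_ ⟨T * x - 2 * U * y, ?_⟩
  · rw [X_dvd_iff, mul_coeff_zero, h0]
    simp
  · linear_combination T * hx - 2 * U * hy + hT

theorem dvd_iter {T : ℤ[X]} {U P g : Fin 3 → ℤ[X]} {m : ℕ}
    (h : ∀ i, X ^ (m - 1) ∣ T * derivative (g i) - U i * g i) (h0 : X ^ m ∣ ∑ i, P i * g i)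
    (k : ℕ) : X ^ (m - k) ∣ ∑ i, (Dop T U)^[k] P i * g i := by
  induction k with
  | zero => exact h0
  | succ k ih =>
    rw [Function.iterate_succ_apply']
    generalize (Dop T U)^[k] P = Q at *
    have e : ∑ i, Dop T U Q i * g i = T * derivative (∑ i, Q i * g i)
        - ∑ i, Q i * (T * derivative (g i) - U i * g i) := by
      simp only [Fin.sum_univ_three, Dop, derivative_add, derivative_mul]
      ring
    rw [e]
    exact ((pow_sub_one_dvd_derivative_of_pow_dvd ih).mul_left _).sub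
      (dvd_sum fun i _ => ((pow_dvd_pow X (by omega)).trans (h i)).mul_left _)

theorem iter_bound {T : ℤ[X]} {U P : Fin 3 → ℤ[X]} {w D d : ℕ} {M H : ℝ} (hT : T.natDegree ≤ w)
    (hU : ∀ i, (U i).natDegree ≤ w) (hP : ∀ i, (P i).natDegree ≤ D) (nT : nrm 1 T ≤ M)
    (nU : ∀ i, nrm 1 (U i) ≤ M) (nP : ∀ i, nrm 1 (P i) ≤ H) (k : ℕ) (hk : D + k * w ≤ d) (i : Fin 3) :
    ((Dop T U)^[k] P i).natDegree ≤ D + k * w ∧
      nrm 1 ((Dop T U)^[k] P i) ≤ (M * (d + 1)) ^ k * H := by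
  induction k with
  | zero => simpa using ⟨hP i, nP i⟩
  | succ k ih =>
    rw [Nat.succ_mul] at hk ⊢
    obtain ⟨h1, h2⟩ := ih (by omega)
    rw [Function.iterate_succ_apply', Dop]
    generalize (Dop T U)^[k] P i = Q at *
    have h3 := hU i
    have h4 := natDegree_derivative_le Q
    refine ⟨natDegree_add_le_of_degree_le (natDegree_mul_le.trans (by omega))
      (natDegree_mul_le.trans (by omega)), (nrm_add zero_le_one _ _).trans ?_⟩
    have e1 := nrm_mul_le zero_le_one nT ((nrm_derivative (h1.trans (by omega : _ ≤ d))).trans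
      (mul_le_mul_of_nonneg_left h2 (Nat.cast_nonneg d)))
    have e2 := nrm_mul_le zero_le_one (nU i) h2
    rw [pow_succ]
    linarith

end Pool.Agent.FS26
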