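import Pool.Agent.Lib.FS26.Core

/-! Three close ends of blocks with a common start are not all solutions. -/

open Polynomial Finset

noncomputable section

namespace Pool.Agent.FS26

/-- The three blocks. -/
def SS (S₁ S₂ : Finset ℕ) : Fin 3 → Finset ℕ := ![∅, S₁, S₁ ∪ S₂]

/-- The leading coefficient of the differential system. -/
def TT (S₁ S₂ : Finset ℕ) : ℤ[X] := 2 * (TS S₁ * TS S₂)

/-- The other coefficients of the differential system. -/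
def UU (S₁ S₂ : Finset ℕ) : Fin 3 → ℤ[X] :=
  ![0, derivative (TS S₁) * TS S₂, derivative (TS S₁ * TS S₂)]

variable {S₁ S₂ : Finset ℕ}

theorem TS_union (hd : Disjoint S₁ S₂) : TS (S₁ ∪ S₂) = TS S₁ * TS S₂ := prod_union hd

theorem TS_empty : TS ∅ = 1 := prod_empty

theorem ode_TS (hd : Disjoint S₁ S₂) (i : Fin 3) :
    TT S₁ S₂ * derivative (TS (SS S₁ S₂ i)) = 2 * UU S₁ S₂ i * TS (SS S₁ S₂ i) := by
  fin_cases i <;> simp [TT, UU, SS, TS_union hd, TS_empty] <;> ring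

theorem nrm_TS {S : Finset ℕ} {A : ℕ} (h : ∀ a ∈ S, 0 < a ∧ a ≤ A) :
    nrm 1 (TS S) ≤ (16 * A) ^ S.card :=
  nrm_prod zero_le_one _ _ fun a ha => (nrm_lin zero_le_one a).trans (by
    have h1 : (1 : ℝ) ≤ a := by exact_mod_cast (h a ha).1
    have h2 : (a : ℝ) ≤ A := by exact_mod_cast (h a ha).2
    linarith)

theorem sys_bound (hd : Disjoint S₁ S₂) {A w : ℕ} (hw : (S₁ ∪ S₂).card ≤ w) (hA : 0 < A)
    (h : ∀ a ∈ S₁ ∪ S₂, 0 < a ∧ a ≤ A) (hw0 : 0 < w) :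
    (TT S₁ S₂).natDegree ≤ w ∧ (∀ i, (UU S₁ S₂ i).natDegree ≤ w) ∧
      nrm 1 (TT S₁ S₂) ≤ (16 * A) ^ (2 * w) ∧ ∀ i, nrm 1 (UU S₁ S₂ i) ≤ (16 * A) ^ (2 * w) := by
  have hA' : (1 : ℝ) ≤ A := by exact_mod_cast hA
  have b1 : (1 : ℝ) ≤ 16 * A := by linarith
  have d0 := (natDegree_TS (S₁ ∪ S₂)).trans hw
  have d1 := natDegree_TS S₁
  have d2 := natDegree_TS S₂
  have n0 := (nrm_TS h).trans (pow_le_pow_right₀ b1 hw)
  have n1 := nrm_TS fun a ha => h a (mem_union_left S₂ ha)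
  have n2 := nrm_TS fun a ha => h a (mem_union_right S₁ ha)
  rw [card_union_of_disjoint hd] at hw
  rw [TS_union hd] at d0 n0
  have b2 : (2 : ℝ) ^ w ≤ (16 * A) ^ w := pow_le_pow_left₀ (by norm_num) (by linarith) w
  have b3 : (w : ℝ) ≤ (16 * A) ^ w := le_trans (by exact_mod_cast Nat.lt_two_pow_self.le) b2
  have b4 : (2 : ℝ) ≤ (16 * A) ^ w := (le_self_pow₀ (by norm_num) hw0.ne').trans b2
  have d3 := natDegree_derivative_le (TS S₁)
  have d4 := natDegree_derivative_le (TS S₁ * TS S₂)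
  rw [two_mul w, pow_add]
  refine ⟨?_, fun i => ?_, ?_, fun i => ?_⟩
  · rw [TT, two_mul]
    exact natDegree_add_le_of_degree_le d0 d0
  · fin_cases i
    · simp [UU]
    · exact natDegree_mul_le.trans (by omega)
    · exact d4.trans (by omega)
  · rw [TT, two_mul]
    refine (nrm_add zero_le_one _ _).trans ?_
    nlinarith
  · fin_cases i
    · simp [UU, nrm, ab]
      positivity
    · refine (nrm_mul_le zero_le_one ((nrm_derivative (d1.trans (by omega : _ ≤ w))).trans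
        (mul_le_mul b3 n1 (nrm_nonneg zero_le_one _) (by positivity))) n2).trans ?_
      rw [mul_assoc, ← pow_add]
      gcongr
    · exact (nrm_derivative d0).trans (mul_le_mul b3 n0 (nrm_nonneg zero_le_one _) (by positivity))

theorem sys_ne (hd : Disjoint S₁ S₂) {a₁ a₂ : ℕ} (h₁ : a₁ ∈ S₁) (h₂ : a₂ ∈ S₂) (p₁ : 0 < a₁)
    (p₂ : 0 < a₂) {P g : Fin 3 → ℤ[X]} {D w m : ℕ} (hw : (S₁ ∪ S₂).card ≤ w) (hP : P ≠ 0)
    (hD : ∀ i, (P i).natDegree ≤ D) (hm : 2 * D + w < m)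
    (hg : ∀ i, X ^ m ∣ g i ^ 2 - TS (SS S₁ S₂ i)) (h : X ^ m ∣ ∑ i, P i * g i) :
    det3 P (Dop (TT S₁ S₂) (UU S₁ S₂) P)
      (Dop (TT S₁ S₂) (UU S₁ S₂) (Dop (TT S₁ S₂) (UU S₁ S₂) P)) ≠ 0 := by
  have n₁ := disjoint_left.1 hd h₁
  have n₂ := disjoint_right.1 hd h₂
  have hc : ∀ i, (SS S₁ S₂ i).card ≤ w := fun i => by
    fin_cases i
    · exact Nat.zero_le w
    · exact (card_le_card subset_union_left).trans hw
    · exact hw
  have key : ∀ (i j : Fin 3) (a : ℕ), 0 < a → a ∉ SS S₁ S₂ i → a ∈ SS S₁ S₂ j →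
      X ^ m ∣ P i * g i + P j * g j → P i = 0 ∧ P j = 0 := fun i j a ha hi hj h => by
    refine pair (rt_lin a ha) (TS_ne ha hi) (TS_root ha hj).1 (TS_root ha hj).2 (hg i) (hg j) h ?_
    have e : ∀ i, (P i ^ 2 * TS (SS S₁ S₂ i)).natDegree ≤ 2 * D + w := fun i =>
      natDegree_mul_le.trans (add_le_add (natDegree_pow_le.trans (Nat.mul_le_mul_left 2 (hD i)))
        ((natDegree_TS _).trans (hc i)))
    exact ((natDegree_sub_le _ _).trans (max_le (e i) (e j))).trans_lt hm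
  rw [Fin.sum_univ_three] at h
  refine det3_ne (rt_lin a₁ p₁) (rt_lin a₂ p₂) (TS_root p₁ h₁).1 (TS_root p₁ h₁).2 (TS_ne p₁ n₁)
    (TS_root p₂ h₂).1 (TS_root p₂ h₂).2 (TS_ne p₂ n₂) (fun i h0 => hP ?_) rfl rfl rfl rfl
  have e : P 0 = 0 ∧ P 1 = 0 ∧ P 2 = 0 := by
    fin_cases i
    · have h0' : P 0 = 0 := h0
      exact ⟨h0', key 1 2 a₂ p₂ n₂ (mem_union_right _ h₂) (by simpa [h0'] using h)⟩
    · have h0' : P 1 = 0 := h0
      have := key 0 2 a₂ p₂ (notMem_empty _) (mem_union_right _ h₂) (by simpa [h0'] using h)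
      exact ⟨this.1, h0', this.2⟩
    · have h0' : P 2 = 0 := h0
      have := key 0 1 a₁ p₁ (notMem_empty _) h₁ (by simpa [h0'] using h)
      exact ⟨this.1, this.2, h0'⟩
  funext i
  fin_cases i
  exacts [e.1, e.2.1, e.2.2]

theorem threeF (hd : Disjoint S₁ S₂) (n₁ : S₁.Nonempty) (n₂ : S₂.Nonempty) {A w N F v : ℕ}
    {u x : Fin 3 → ℕ} (hu : ∀ i, (SS S₁ S₂ i).card = 2 * u i) (huv : ∀ i, u i ≤ v)
    (hv : 2 * v ≤ w) (hw : 4 ≤ w) (hF : 11 ≤ F) (hA : ∀ a ∈ S₁ ∪ S₂, 0 < a ∧ a ≤ A)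
    (hB : (16 * A) ^ (3600 * w) ≤ 4 * N) (hM : 204 * (w * F) + 1 ≤ (4 * N) ^ 2)
    (hx : ((4 * N) ^ (w * F)) ^ 212 ≤ x 0) (hx' : x 0 ≤ ((4 * N) ^ (w * F)) ^ 286)
    (e : ∀ i, x i ^ 2 + ∏ a ∈ SS S₁ S₂ i, (N + a) = (∏ a ∈ SS S₁ S₂ i, (N + a)) * x 0 ^ 2 + 1) :
    False := by
  obtain ⟨a₁, h₁⟩ := n₁
  obtain ⟨a₂, h₂⟩ := n₂
  have p₁ := hA a₁ (mem_union_left _ h₁)
  have p₂ := hA a₂ (mem_union_right _ h₂)
  have A0 : 0 < A := by omega
  have AN : 16 * A ≤ 4 * N := (Nat.le_self_pow (by omega) _).trans hB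
  have hc : ∀ i, (SS S₁ S₂ i).card ≤ w := fun i => by
    have := hu i
    have := huv i
    omega
  have hA' : ∀ i, ∀ a ∈ SS S₁ S₂ i, 0 < a ∧ a ≤ A := fun i a ha => hA a (by
    fin_cases i
    · exact absurd ha (notMem_empty a)
    · exact mem_union_left _ ha
    · exact ha)
  have wF : 4 * F ≤ w * F := Nat.mul_le_mul_right F hw
  have wF' : w * 11 ≤ w * F := Nat.mul_le_mul_left w hF
  obtain ⟨dT, dU, nT, nU⟩ := sys_bound hd (hc 2) A0 hA (by omega)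
  have x2 : 2 ≤ x 0 := le_trans (le_trans (by omega) ((Nat.le_self_pow (by omega) _).trans
    (Nat.le_self_pow (by omega) _))) hx
  have hnear := fun i => near (hu i) (huv i) (by omega : 0 < N)
    (fun a ha => by have := hA' i a ha; omega) x2 (e i)
  have NM : (N : ℝ) ≤ (4 * N : ℕ) := by exact_mod_cast (by omega : N ≤ 4 * N)
  have N0 : (0 : ℝ) < N := by exact_mod_cast (by omega : 0 < N)
  have M0 : 0 < 4 * N := by omega
  generalize 4 * N = M at *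
  have A1 : (1 : ℝ) ≤ A := by exact_mod_cast A0
  have b0 : (16 : ℝ) ≤ 16 * A := by linarith
  have r8 : ∀ i, ∀ a ∈ SS S₁ S₂ i, 8 * a * (16 * A : ℝ)⁻¹ ≤ 1 := fun i a ha => by
    have : (a : ℝ) ≤ A := by exact_mod_cast (hA' i a ha).2
    rw [← div_eq_mul_inv, div_le_one (by positivity)]
    linarith
  have BM : (16 * A : ℝ) ≤ M := by exact_mod_cast AN
  have hB1 : (16 * A : ℝ) ^ (3600 * w) ≤ M := by exact_mod_cast hB
  have hM1 : ((204 * (w * F) : ℕ) + 1 : ℝ) ≤ M ^ 2 := by exact_mod_cast hM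
  have hx1 : ((M : ℝ) ^ (w * F)) ^ 212 ≤ x 0 := by exact_mod_cast hx
  have hx2 : (x 0 : ℝ) ≤ (M ^ (w * F)) ^ 286 := by exact_mod_cast hx'
  generalize (16 * A : ℝ) = B at *
  have B1 : 1 ≤ B := by linarith
  have B0 : 0 < B := by linarith
  have M1 : (1 : ℝ) ≤ M := by linarith
  have r0 : 0 < B⁻¹ := by positivity
  have r1 : B⁻¹ ≤ 1 := inv_le_one_of_one_le₀ B1
  have hα : (M : ℝ)⁻¹ ≤ B⁻¹ := inv_anti₀ B0 BM
  have a0 : (0 : ℝ) ≤ (M : ℝ)⁻¹ := by positivity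
  have pw : ∀ n ≤ 3600 * w, B ^ n ≤ M := fun n hn => (pow_le_pow_right₀ B1 hn).trans hB1
  have pF : ∀ n ≤ 3600 * (w * F), B ^ n ≤ M ^ F := fun n hn => by
    refine (pow_le_pow_right₀ B1 hn).trans ?_
    rw [← mul_assoc, pow_mul]
    gcongr
  have MZ : ∀ n k, n ≤ w * F * k → (M : ℝ) ^ n ≤ (M ^ (w * F)) ^ k := fun n k hn => by
    rw [← pow_mul]
    exact pow_le_pow_right₀ M1 hn
  have MZ1 : ∀ n ≤ w * F, (M : ℝ) ^ n ≤ M ^ (w * F) := fun n hn => pow_le_pow_right₀ M1 hn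
  have rho : ∀ n, 499 * (w * F) ≤ n → ((M : ℝ)⁻¹ / B⁻¹) ^ n ≤ (((M : ℝ) ^ (w * F)) ^ 498)⁻¹ :=
    fun n hn => by
    refine (pow_le_pow_of_le_one (by positivity) ((div_le_one r0).2 hα) hn).trans ?_
    have := (pF (499 * (w * F)) (by omega)).trans (MZ1 F (by omega))
    rw [div_inv_eq_mul, mul_pow, inv_pow, mul_comm 499, pow_mul (M : ℝ), mul_comm _ 499]
    refine (mul_le_mul_of_nonneg_left this (by positivity)).trans_eq ?_
    field_simp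
  have wZ : (8 : ℝ) ^ w ≤ M ^ (w * F) := calc
    (8 : ℝ) ^ w ≤ M ^ w := by gcongr; linarith
    _ ≤ _ := MZ1 w (by omega)
  have w2 : (4 : ℝ) ≤ 2 ^ w := le_trans (by norm_num) (pow_le_pow_right₀ one_le_two hw)
  have w8 : (8 : ℝ) ^ w = 2 ^ w * (2 ^ w * 2 ^ w) := by
    rw [← mul_pow, ← mul_pow]
    norm_num
  have vZ : (N : ℝ) ^ v ≤ M ^ (w * F) := calc
    (N : ℝ) ^ v ≤ M ^ v := by gcongr
    _ ≤ _ := MZ1 v (by omega)
  obtain ⟨E, hE⟩ : ∃ E, E = 100 * (w * F) := ⟨_, rfl⟩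
  choose g g1 g2 g3 g4 using fun i => exists_sqS (SS S₁ S₂ i) (5 * E) r0.le (r8 i)
  have g5 : ∀ i, nrm B⁻¹ (g i) ≤ 2 ^ w := fun i =>
    (g3 i).trans (pow_le_pow_right₀ one_le_two (hc i))
  obtain ⟨P, P0, P1, P2, P3⟩ := siegel g (by omega : 0 < E) (one_le_pow₀ B1 : 1 ≤ B ^ (6 * E))
    fun i j hj => by
    have h1 := (coeff_le_nrm r0.le (g i) j).trans (g5 i)
    rw [inv_pow, ← div_eq_mul_inv, div_le_iff₀ (by positivity)] at h1
    calc _ ≤ _ := h1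
      _ ≤ B ^ w * B ^ j := by gcongr; linarith
      _ ≤ _ := by
        rw [← pow_add]
        exact pow_le_pow_right₀ B1 (by omega)
  have P4 : ∀ i, nrm 1 (P i) ≤ M ^ F := fun i => by
    have h1 : (E : ℝ) ≤ 2 ^ E := by exact_mod_cast Nat.lt_two_pow_self.le
    have h2 : (8 : ℝ) ≤ 8 ^ E := le_self_pow₀ (by norm_num) (by omega)
    have h3 : (8 : ℝ) ^ E * 2 ^ E ≤ B ^ E := by
      rw [← mul_pow]
      gcongr
      linarith
    have h4 : (0 : ℝ) ≤ E := Nat.cast_nonneg E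
    have h5 : 6 * (E : ℝ) ≤ B ^ E := by nlinarith
    calc _ ≤ _ := P2 i
      _ ≤ B ^ E * (B ^ E * B ^ (6 * E)) ^ 5 := by gcongr; linarith
      _ = B ^ (36 * E) := by ring
      _ ≤ _ := pF _ (by omega)
  have it : ∀ k ≤ 4 * F, ∀ i, ((Dop (TT S₁ S₂) (UU S₁ S₂))^[k] P i).natDegree ≤ 204 * (w * F) ∧
      nrm 1 ((Dop (TT S₁ S₂) (UU S₁ S₂))^[k] P i) ≤ M ^ (3 * k + F) := fun k hk i => by
    have h1 : 2 * E + k * w ≤ 204 * (w * F) := by
      have := Nat.mul_le_mul_right w hk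
      nlinarith
    obtain ⟨h2, h3⟩ := iter_bound dT dU P1 (nT.trans (pw _ (by omega)))
      (fun i => (nU i).trans (pw _ (by omega))) P4 k h1 i
    refine ⟨h2.trans h1, h3.trans ?_⟩
    calc _ ≤ ((M : ℝ) * M ^ 2) ^ k * M ^ F := by gcongr
      _ = _ := by ring
  have Z4 : (8 : ℝ) ≤ M ^ (w * F) := (le_self_pow₀ (by norm_num) (by omega)).trans wZ
  have x0 : (0 : ℝ) < x 0 := lt_of_lt_of_le (by positivity) hx1
  have hy : ∀ i, |((x i * N ^ (v - u i) : ℕ) : ℝ) - aeval (M : ℝ)⁻¹ (g i) * (x 0 * N ^ v)|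
      ≤ 4 * (((M : ℝ) ^ (w * F)) ^ 210)⁻¹ := fun i => by
    have h1 : nrm B⁻¹ (TS (SS S₁ S₂ i)) ≤ 2 ^ w :=
      (nrm_prod r0.le _ _ fun a ha => (nrm_lin r0.le a).trans (by
        have := r8 i a ha
        have : 0 ≤ a * B⁻¹ := by positivity
        linarith)).trans (pow_le_pow_right₀ one_le_two (hc i))
    have h2 : nrm B⁻¹ (g i ^ 2 - TS (SS S₁ S₂ i)) ≤ M ^ (w * F) := by
      refine (nrm_sub r0.le _ _).trans ?_
      have := nrm_mul_le r0.le (g5 i) (g5 i)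
      rw [sq]
      nlinarith
    have h3 := (aeval_le_of_dvd a0 r0 hα (g1 i)).trans
      (mul_le_mul (rho _ (by omega)) h2 (nrm_nonneg r0.le _) (by positivity))
    rw [map_sub, map_pow] at h3
    refine (approx (g4 i _ a0 hα) h3 (hnear i).1 (by positivity) (hnear i).2).trans ?_
    have h4 : (2 : ℝ) ^ (SS S₁ S₂ i).card ≤ M ^ (w * F) := by
      have := pow_le_pow_right₀ (one_le_two (α := ℝ)) (hc i)
      nlinarith
    have h5 : (0 : ℝ) < N ^ v := by positivity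
    generalize (N : ℝ) ^ v = n at *
    generalize (M : ℝ) ^ (w * F) = Z at *
    have h6 : 0 < Z := by linarith
    calc _ = 2 * (n * 2 ^ (SS S₁ S₂ i).card / x 0 + x 0 * n * ((Z ^ 498)⁻¹ * Z)) := by field_simp
      _ ≤ 2 * (Z * Z / Z ^ 212 + Z ^ 286 * Z * ((Z ^ 498)⁻¹ * Z)) := by gcongr
      _ = _ := by
        field_simp
        norm_num
  have hv := pow_dvd_det3 (u := M) (v := -1) (β := (M : ℝ)⁻¹) (T := TT S₁ S₂) rfl
    (by push_cast; field_simp; norm_num)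
    (by
      rw [TT, map_mul, map_mul, aeval_TS, aeval_TS, map_ofNat]
      positivity) (UU S₁ S₂) P
    (y := fun i => ((x i * N ^ (v - u i) : ℕ) : ℝ)) (by push_cast; positivity) (K := 3 * F + 11)
    (fun k hk => vanish (δ := 4 * (((M : ℝ) ^ (w * F)) ^ 210)⁻¹) M0 r0 r1 hα
      (fun i => (it k (by omega) i).1) (fun i => (it k (by omega) i).2) g5
      (dvd_iter (fun i => ode (g1 i) (g2 i) (ode_TS hd i)) P3 k) (by positivity) hy
      (numeric (Z := M ^ (w * F)) (by linarith) (MZ _ _ (by omega))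
        (by rw [pow_succ]; gcongr) (rho _ (by omega)) (MZ _ _ (by omega)) (by nlinarith) le_rfl
        (by positivity) (by positivity) (by positivity) (by positivity) (by positivity)))
    (3 * F + 10) 0 1 2 (by omega) (by omega) (by omega)
  have h1 := (pow_le_nrm M0 (sys_ne hd h₁ h₂ p₁.1 p₂.1 (hc 2) P0 P1 (by omega) g1 P3) hv).trans
    (nrm_det3 (fun i => (it 0 (by omega) i).2) (fun i => (it 1 (by omega) i).2)
      fun i => (it 2 (by omega) i).2)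
  have h2 : (0 : ℝ) < M ^ (3 * F + 9) := by positivity
  have h3 : (M : ℝ) ^ (3 * 0 + F) * (M ^ (3 * 1 + F) * M ^ (3 * 2 + F)) = M ^ (3 * F + 9) := by ring
  rw [h3, pow_succ _ (3 * F + 9)] at h1
  nlinarith

theorem three (hd : Disjoint S₁ S₂) (n₁ : S₁.Nonempty) (n₂ : S₂.Nonempty) {A w N u₁ u₂ x₀ x₁ x₂ : ℕ}
    (c₁ : S₁.card = 2 * u₁) (c₂ : (S₁ ∪ S₂).card = 2 * u₂) (hv : 2 * u₂ ≤ w)
    (hA : ∀ a ∈ S₁ ∪ S₂, 0 < a ∧ a ≤ A) (hB : (16 * A) ^ (3600 * w) ≤ 4 * N)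
    (hx : (4 * N) ^ (2400 * w) ≤ x₀) (hx' : x₀ ≤ 2 ^ (4 * N) ^ 2)
    (e₁ : x₁ ^ 2 + ∏ a ∈ S₁, (N + a) = (∏ a ∈ S₁, (N + a)) * x₀ ^ 2 + 1)
    (e₂ : x₂ ^ 2 + ∏ a ∈ S₁ ∪ S₂, (N + a) = (∏ a ∈ S₁ ∪ S₂, (N + a)) * x₀ ^ 2 + 1) : False := by
  have k0 := card_union_of_disjoint hd
  have k1 := n₁.card_pos
  have k2 := n₂.card_pos
  obtain ⟨a, ha⟩ := id n₁
  have := hA a (mem_union_left _ ha)
  have AN : 16 * A ≤ 4 * N := (Nat.le_self_pow (by omega) _).trans hB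
  have h1 : 1 < (4 * N) ^ (212 * w) := Nat.one_lt_pow (by omega) (by omega)
  have h2 : 11 ≤ Nat.log ((4 * N) ^ (212 * w)) x₀ := Nat.le_log_of_pow_le h1 (by
    rw [← pow_mul]
    exact (Nat.pow_le_pow_right (by omega) (by omega)).trans hx)
  have h3 := Nat.pow_log_le_self ((4 * N) ^ (212 * w)) (x := x₀) (by
    rintro rfl
    simp at h2)
  have h4 := Nat.lt_pow_succ_log_self h1 x₀
  generalize Nat.log ((4 * N) ^ (212 * w)) x₀ = F at *
  rw [← pow_mul] at h3 h4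
  have h5 : 212 * w * F ≤ (4 * N) ^ 2 := (Nat.pow_le_pow_iff_right one_lt_two).1
    (((Nat.pow_le_pow_left (by omega) _).trans h3).trans hx')
  have h6 : w * 11 ≤ w * F := Nat.mul_le_mul_left w h2
  refine threeF hd n₁ n₂ (u := ![0, u₁, u₂]) (x := ![x₀, x₁, x₂]) (v := u₂) (fun i => ?_)
    (fun i => ?_) hv (by omega) h2 hA hB (by nlinarith) ?_ ?_ fun i => ?_
  · fin_cases i
    exacts [rfl, c₁, c₂]
  · fin_cases i
    exacts [Nat.zero_le _, (by omega : u₁ ≤ u₂), le_rfl]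
  · rw [← pow_mul]
    exact (Nat.pow_le_pow_right (by omega) (by nlinarith)).trans h3
  · rw [← pow_mul]
    exact h4.le.trans (Nat.pow_le_pow_right (by omega) (by rw [Nat.succ_eq_add_one]; nlinarith))
  · fin_cases i
    exacts [by simp [SS], e₁, e₂]

end Pool.Agent.FS26
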